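import Pool.Agent.HamChrom.D2.Fam

set_option autoImplicit false

namespace Pool.Agent.HamChrom.D2

open Pool.Agent.HamChrom

def certA0 : Cert := ⟨[1], 2 ^ 61, [
  ((.nu 0), [⟨0, 2, [1329638912, 4536064]⟩, ⟨0, 18, [8442464256, 31212380416, 42982355456, 26097426944, 5769433600]⟩]),
  ((.nu 1), [⟨0, 0, [1718016, 6872064, 10308864, 6872832, 1718016]⟩, ⟨0, 2, [410981120, 4690758656, 4054892800, 986382080, 1718016]⟩, ⟨2, 0, [1718272, 6872832, 10308864, 6872576, 1718272]⟩, ⟨2, 1, [23665037312, 92774973952, 135921968384, 88179164160, 21251578368]⟩]),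
  ((.nu 16), [⟨1, 1, [8715175168, 30979218176, 40232619264, 22388285184, 4361931776]⟩, ⟨1, 8, [224297728, 5433869824, 15367300608, 15330181888, 5230230528]⟩, ⟨1, 64, [20659553024, 79895971328, 115333571840, 73617441536, 17462511104]⟩, ⟨1, 72, [1718784, 6878208, 10319104, 6879744, 1719808]⟩, ⟨1, 73, [11126946560, 40735417600, 55152390912, 32606314752, 7120172032]⟩]),
  ((.nu 2), [⟨0, 0, [15051556864, 57684631808, 82146914816, 51446161920, 11816768000]⟩, ⟨0, 17, [7269003264, 21583773184, 21550029568, 7424752640, 305047040]⟩, ⟨3, 0, [2989967360, 14593827072, 26026586880, 20231561728, 5808834560]⟩]),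
  ((.nu 3), [⟨0, 0, [1718272, 6872832, 10309120, 6872576, 117272064]⟩]),
  ((.nu 4), [⟨0, 0, [15901165824, 63107343360, 94244598528, 62771831040, 15733410048]⟩, ⟨0, 1, [7621083392, 34837824512, 51346955008, 33969716480, 8629953792]⟩, ⟨0, 17, [1718016, 6871808, 7167505152, 9016320256, 3179071744]⟩, ⟨0, 18, [5048959232, 20476986368, 22843415296, 9756654848, 1131717888]⟩]),
  ((.nu 5), [⟨0, 1, [15465826304, 56606793984, 77025423872, 46093771264, 10093761024]⟩, ⟨0, 2, [385396224, 129840896, 6041370624, 7929856000, 2958032896]⟩]),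
  ((.nu 6), [⟨0, 16, [15375124480, 57937961216, 81563136512, 50812887552, 11697033728]⟩])]⟩

theorem checkA0 : Checked par fams famA true certA0 :=
  ⟨by decide +kernel, by decide +kernel, by decide +kernel⟩

end Pool.Agent.HamChrom.D2
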