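import Pool.Agent.HamChrom.D2.Fam

set_option autoImplicit false

namespace Pool.Agent.HamChrom.D2

open Pool.Agent.HamChrom

def certH0 : Cert := ⟨[1], 2 ^ 59, [
  ((.nu 0), [⟨0, 0, [2575446528, 6594546432, 4179954688, 256, 256]⟩, ⟨0, 17, [7912077824, 30403097088, 43786815488, 27388011264, 6292149760]⟩, ⟨2, 0, [4578463232, 20629107968, 34567549952, 24439684864, 5761924864]⟩]),
  ((.nu 16), [⟨1, 1, [6407651328, 26161840128, 40042561536, 27230208000, 6941835264]⟩, ⟨1, 8, [2620879360, 9099692800, 11451845632, 7210074368, 2397896960]⟩, ⟨1, 64, [9019346432, 35931698432, 53614441472, 34389229312, 7526285056]⟩, ⟨1, 72, [9297739776, 40331083776, 65393344512, 46984396800, 12624396288]⟩]),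
  ((.nu 2), [⟨0, 0, [8295665152, 34790126848, 54596400128, 36883136256, 8620343040]⟩, ⟨0, 1, [3297723904, 11395763712, 14350956544, 8330157312, 1877305856]⟩, ⟨3, 0, [1716736, 6867712, 10292224, 1128792320, 1284505856]⟩]),
  ((.nu 4), [⟨0, 0, [5651824640, 24928845824, 41026584576, 29873930240, 8124366848]⟩, ⟨0, 1, [5520266240, 22475555584, 33922132992, 22001359872, 4673726720]⟩, ⟨0, 2, [1715200, 6864128, 10294272, 504161280, 859805440]⟩, ⟨0, 3, [7811859968, 32084397568, 49513854976, 34646596864, 9205344768]⟩]),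
  ((.nu 6), [⟨0, 1, [1630201344, 4257951488, 3193625600, 6866688, 1715456]⟩, ⟨0, 16, [12039607296, 49141465856, 75035765760, 50308258816, 12013562112]⟩])]⟩

theorem checkH0 : Checked par fams famH true certH0 :=
  ⟨by decide +kernel, by decide +kernel, by decide +kernel⟩

end Pool.Agent.HamChrom.D2
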