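import Pool.Agent.HamChrom.D2.Fam

set_option autoImplicit false

namespace Pool.Agent.HamChrom.D2

open Pool.Agent.HamChrom

def certP0 : Cert := ⟨[1], 2 ^ 60, [
  ((.nu 0), [⟨0, 0, [15857090560, 61495312384, 89343393792, 57629212672, 13924040704]⟩]),
  ((.nu 1), [⟨0, 2, [15097623552, 55602972160, 76735912448, 47053384192, 10822823424]⟩, ⟨2, 0, [48282504192, 190179047936, 280329381376, 183251654144, 44818813440]⟩]),
  ((.nu 16), [⟨1, 0, [48002632704, 189908318720, 281263367680, 184812328448, 45454643712]⟩, ⟨1, 8, [1717248, 6850048, 10279424, 6859264, 1715712]⟩]),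
  ((.nu 4), [⟨0, 0, [31772917760, 122919550976, 178293522432, 114920062976, 27773173760]⟩, ⟨0, 2, [15770566656, 61450518528, 89555779584, 57842270208, 13966442496]⟩]),
  ((.nu 5), [⟨0, 0, [15857090560, 61495312384, 89343393792, 57629212672, 13924040704]⟩])]⟩

theorem checkP0 : Checked par fams famP true certP0 :=
  ⟨by decide +kernel, by decide +kernel, by decide +kernel⟩

end Pool.Agent.HamChrom.D2
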